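import Pool.Agent.H26.AN.Large
import Pool.Agent.H83.AG.Small2
import Pool.Agent.H83.AG.Right
import Pool.Graph.R_seed8.W778.AG.Fin
import Pool.Graph.R_seed8.W342.AG.Cap2

/-!
# A linear dimension threshold below `n` which works for almost all angles at once

For every `ε > 0` there is `c < 1` such that for all `n ≥ 2` every Borel set `E ⊆ ℝⁿ` of Hausdorff
dimension larger than `c n` contains the right angle and all angles in `[ε, π - ε]` whose distance to
the right angle is at least `ε`. The threshold `c` depends on `ε` only, neither on `n` nor on the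
angle. (The question asks for the threshold `n / 2 + C` and all angles in `(0, π)`. Known for angles
other than the right one: the threshold `n - 1`.)

The proof is the proof by helper83 and an earlier run (`Pool.Graph.R_seed8`: W778, W646, W342) of the
theorem that for each single angle `α` there is such a `c`, with the choice of all constants made
uniform in the angle (`Pool.Agent.H26.AN`).
-/

set_option autoImplicit false

namespace Pool.Agent.Results.MP_3ccd08_an.LinearThreshold

open MeasureTheory Set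

/-- The set `𝒜(E)` of the angles contained in `E`. -/
def Angles {n : ℕ} (E : Set (EuclideanSpace ℝ (Fin n))) : Set ℝ :=
  {α | ∃ x ∈ E, ∃ y ∈ E, ∃ z ∈ E,
    x ≠ y ∧ z ≠ y ∧ x ≠ z ∧ EuclideanGeometry.angle x y z = α}

/-- The right angle, and the angles of `[ε, π - ε]` at distance at least `ε` from the right angle. -/
def Far (ε : ℝ) : Set ℝ :=
  {Real.pi / 2} ∪ {α | α ∈ Icc ε (Real.pi - ε) ∧ ε ≤ |α - Real.pi / 2|}

open Pool.Agent.W778.AG

lemma hasAngle_angles {n : ℕ} {K E : Set (En n)} {α : ℝ} (h : HasAngle K α) (hKE : K ⊆ E) :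
    α ∈ Angles E := by
  obtain ⟨x, hx, y, hy, z, hz, h1, h2, h3, h4⟩ := h
  exact ⟨x, hKE hx, y, hKE hy, z, hKE hz, h1, h2.symm, h3, h4⟩

lemma sin_ge {δ β : ℝ} (hδ0 : 0 ≤ δ) (h1 : δ ≤ β) (h2 : β ≤ Real.pi - δ) :
    Real.sin δ ≤ Real.sin β := by
  rcases le_total β (Real.pi / 2) with h | h
  · exact Real.sin_le_sin_of_le_of_le_pi_div_two (by linarith [Real.pi_pos]) h h1
  · rw [← Real.sin_pi_sub β]
    exact Real.sin_le_sin_of_le_of_le_pi_div_two (by linarith [Real.pi_pos]) (by linarith)
      (by linarith)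

/-- **One linear threshold for all angles away from `0`, `π` and `π / 2`, and for `π / 2`.** -/
theorem result : ∀ ε : ℝ, 0 < ε → ∃ c : ℝ, c < 1 ∧
    ∀ n : ℕ, 2 ≤ n → ∀ E : Set (EuclideanSpace ℝ (Fin n)), MeasurableSet E →
      ENNReal.ofReal (c * (n : ℝ)) < dimH E → Far ε ⊆ Angles E := by
  intro ε hε
  set δ : ℝ := min ε 1 with hδ
  have hδ0 : 0 < δ := lt_min hε one_pos
  have hδ1 : δ ≤ 1 := min_le_right _ _
  have hδε : δ ≤ ε := min_le_left _ _
  have hpi := Real.pi_gt_three
  set S : ℝ := Real.sin δ ^ 2 with hS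
  have hsin : 0 < Real.sin δ := Real.sin_pos_of_pos_of_lt_pi hδ0 (by linarith)
  have hS0 : 0 < S := by positivity
  have hS1 : S ≤ 1 := Real.sin_sq_le_one δ
  obtain ⟨κ, hκ0, hκ1, n₀, H⟩ := Pool.Agent.H26.AN.largeU S S hS0 hS1 hS0
  refine ⟨max (3 / 4) (max (1 - κ) (1 - 1 / ((n₀ : ℝ) + 2))),
    max_lt (by norm_num) (max_lt (by linarith) ?_), fun n hn E hE hdim α hα => ?_⟩
  · have : 0 < 1 / ((n₀ : ℝ) + 2) := by positivity
    linarith
  have hn0 : (0 : ℝ) < n := by exact_mod_cast (by omega : 0 < n)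
  have hn2 : (2 : ℝ) ≤ n := by exact_mod_cast hn
  rcases hα with hα | ⟨⟨h1, h2⟩, h3⟩
  · have h4 : ENNReal.ofReal (3 / 4 * (n : ℝ)) < dimH E := by
      refine lt_of_le_of_lt (ENNReal.ofReal_le_ofReal ?_) hdim
      exact mul_le_mul_of_nonneg_right (le_max_left _ _) hn0.le
    obtain ⟨K, hKE, hK, hd⟩ := Pool.Agent.W342.AG.cap n E hE (3 / 4 * n) (by positivity) h4
    have h5 := Pool.Agent.H83.AG.right n hn K hK hd
    rw [mem_singleton_iff] at hα
    rw [hα]
    exact hasAngle_angles h5 hKE
  · have ha0 : 0 < α := by linarith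
    have ha1 : α < Real.pi := by linarith
    have hSα : S ≤ Real.sin α ^ 2 :=
      pow_le_pow_left₀ hsin.le (sin_ge hδ0.le (by linarith) (by linarith)) 2
    have hcα : S ≤ Real.cos α ^ 2 := by
      have h4 : Real.cos α ^ 2 = Real.sin |α - Real.pi / 2| ^ 2 := by
        rcases abs_cases (α - Real.pi / 2) with ⟨h, -⟩ | ⟨h, -⟩
        · rw [h, Real.sin_sub_pi_div_two, neg_sq]
        · rw [h, neg_sub, Real.sin_pi_div_two_sub]
      rw [h4]
      refine pow_le_pow_left₀ hsin.le (sin_ge hδ0.le (by linarith) ?_) 2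
      have h5 : |α - Real.pi / 2| ≤ Real.pi / 2 := by
        rw [abs_le]
        constructor <;> linarith
      linarith
    rcases le_or_gt n₀ n with hle | hlt
    · have h4 : ENNReal.ofReal ((1 - κ) * n) < dimH E := by
        refine lt_of_le_of_lt (ENNReal.ofReal_le_ofReal ?_) hdim
        exact mul_le_mul_of_nonneg_right ((le_max_left _ _).trans (le_max_right _ _)) hn0.le
      obtain ⟨K, hKE, hK, hd⟩ := Pool.Agent.W342.AG.cap n E hE ((1 - κ) * n)
        (mul_nonneg (by linarith) hn0.le) h4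
      exact hasAngle_angles (H α ha0 ha1 hSα hcα n hle K hK hd) hKE
    · have h4 : ENNReal.ofReal ((n : ℝ) - 1) < dimH E := by
        refine lt_of_le_of_lt (ENNReal.ofReal_le_ofReal ?_) hdim
        refine le_trans ?_ (mul_le_mul_of_nonneg_right
          ((le_max_right _ _).trans (le_max_right _ _)) hn0.le)
        have h5 : (n : ℝ) / ((n₀ : ℝ) + 2) ≤ 1 := by
          rw [div_le_one (by positivity)]
          have : (n : ℝ) < n₀ := by exact_mod_cast hlt
          linarith
        have h6 : (1 - 1 / ((n₀ : ℝ) + 2)) * (n : ℝ) = n - n / ((n₀ : ℝ) + 2) := by ring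
        rw [h6]
        linarith
      obtain ⟨K, hKE, hK, hd⟩ := Pool.Agent.W342.AG.cap n E hE ((n : ℝ) - 1) (by linarith) h4
      exact hasAngle_angles (Pool.Agent.H83.AG.small n hn K hK hd α ha0 ha1) hKE

end Pool.Agent.Results.MP_3ccd08_an.LinearThreshold
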